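import Mathlib

namespace Pool.Agent.Results.MP_e47ea7_co.Counter

open SimpleGraph

/-- `f` places a rainbow copy of `H` in the graph `G` with edge colouring `χ`. -/
def RainbowCopy {α V : Type} (H : SimpleGraph α) (G : SimpleGraph V) (χ : Sym2 V → ℕ)
    (f : α ↪ V) : Prop :=
  (∀ a b, H.Adj a b → G.Adj (f a) (f b)) ∧ Set.InjOn (fun x => χ (Sym2.map f x)) H.edgeSet

/-- `(G, χ)` is weakly `H`-rainbow saturated. -/
def WeakSat {α V : Type} (H : SimpleGraph α) (G : SimpleGraph V) (χ : Sym2 V → ℕ) : Prop :=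
  ∃ (m : ℕ) (e : Fin m → Sym2 V), Function.Injective e ∧ Set.range e = Gᶜ.edgeSet ∧
    ∀ ψ : Sym2 V → ℕ, (∀ x ∈ G.edgeSet, ψ x = χ x) → Function.Injective (ψ ∘ e) →
      ∀ i : Fin m, ∃ f : α ↪ V, RainbowCopy H (G ⊔ fromEdgeSet (e '' Set.Iic i)) ψ f ∧
        e i ∈ Sym2.map f '' H.edgeSet

abbrev M3 : SimpleGraph (Fin 3 × Bool) := (⊥ : SimpleGraph (Fin 3)) □ (⊤ : SimpleGraph Bool)

theorem mem_M3 (x : Sym2 (Fin 3 × Bool)) :
    x ∈ M3.edgeSet ↔ ∃ i, x = s((i, false), (i, true)) := by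
  constructor
  · induction x using Sym2.ind with
    | _ a b =>
      obtain ⟨i, s⟩ := a
      obtain ⟨j, t⟩ := b
      intro h
      simp only [mem_edgeSet, boxProd_adj, bot_adj, false_and, top_adj, false_or] at h
      obtain ⟨h1, rfl⟩ := h
      refine ⟨i, ?_⟩
      cases s <;> cases t <;> simp_all
  · rintro ⟨i, rfl⟩
    simp

def Dj {V : Type} (x y : Sym2 V) : Prop := ∀ v, v ∈ x → v ∉ y

theorem Dj.symm {V : Type} {x y : Sym2 V} (h : Dj x y) : Dj y x := fun v a b => h v b a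

theorem build {V : Type} (G : SimpleGraph V) (χ : Sym2 V → ℕ) (x y z : Sym2 V)
    (hx : x ∈ G.edgeSet) (hy : y ∈ G.edgeSet) (hz : z ∈ G.edgeSet) (d1 : Dj x y) (d2 : Dj x z)
    (d3 : Dj y z) (c1 : χ x ≠ χ y) (c2 : χ x ≠ χ z) (c3 : χ y ≠ χ z) :
    ∃ f, RainbowCopy M3 G χ f ∧ x ∈ Sym2.map f '' M3.edgeSet := by
  let E : Fin 3 → Sym2 V := ![x, y, z]
  have hE : ∀ i, E i ∈ G.edgeSet := by
    intro i; fin_cases i <;> assumption
  have hD : ∀ i j, i ≠ j → Dj (E i) (E j) := by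
    intro i j h
    have := d1.symm
    have := d2.symm
    have := d3.symm
    fin_cases i <;> fin_cases j <;> first | exact absurd rfl h | assumption
  have hC : ∀ i j, i ≠ j → χ (E i) ≠ χ (E j) := by
    intro i j h
    have := c1.symm
    have := c2.symm
    have := c3.symm
    fin_cases i <;> fin_cases j <;> first | exact absurd rfl h | assumption
  have : ∀ i, ∃ a b, E i = s(a, b) := fun i => by
    induction E i using Sym2.ind with
    | _ a b => exact ⟨a, b, rfl⟩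
  choose a b hab using this
  have hadj : ∀ i, G.Adj (a i) (b i) := fun i => by
    have := hE i
    rwa [hab] at this
  have hmem : ∀ (i : Fin 3) (s : Bool), (if s then b i else a i) ∈ E i := by
    intro i s
    rw [hab]
    cases s <;> simp
  let f : Fin 3 × Bool ↪ V := ⟨fun p => if p.2 then b p.1 else a p.1, by
    rintro ⟨i, s⟩ ⟨j, t⟩ h
    have hij : i = j := by
      by_contra hne
      exact hD i j hne _ (hmem i s) (by
        have := hmem j t
        simp only at h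
        rwa [← h] at this)
    subst hij
    have := (hadj i).ne
    cases s <;> cases t <;> simp_all [eq_comm]⟩
  have hf : ∀ i, Sym2.map f s((i, false), (i, true)) = E i := by
    intro i
    rw [hab]
    simp [f]
  refine ⟨f, ⟨?_, ?_⟩, s((0, false), (0, true)), (mem_M3 _).mpr ⟨0, rfl⟩, hf 0⟩
  · intro p q h
    obtain ⟨i, hi⟩ := (mem_M3 s(p, q)).mp h
    have := hE i
    rw [← hf, ← hi] at this
    exact this
  · intro p hp q hq h
    obtain ⟨i, rfl⟩ := (mem_M3 _).mp hp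
    obtain ⟨j, rfl⟩ := (mem_M3 _).mp hq
    simp only [hf] at h
    by_contra hne
    exact hC i j (fun e => hne (by rw [e])) h

theorem extract {V : Type} (G : SimpleGraph V) (χ : Sym2 V → ℕ) (f : Fin 3 × Bool ↪ V)
    (h : RainbowCopy M3 G χ f) (x : Sym2 V) (hx : x ∈ Sym2.map f '' M3.edgeSet) :
    ∃ y ∈ G.edgeSet, ∃ z ∈ G.edgeSet, Dj y z ∧ χ y ≠ χ x ∧ χ z ≠ χ x ∧ χ y ≠ χ z := by
  obtain ⟨p, hp, rfl⟩ := hx
  obtain ⟨i, rfl⟩ := (mem_M3 _).mp hp
  have hE : ∀ j : Fin 3, Sym2.map f s((j, false), (j, true)) ∈ G.edgeSet :=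
    fun j => h.1 _ _ (by simp)
  have hC : ∀ j k : Fin 3, j ≠ k →
      χ (Sym2.map f s((j, false), (j, true))) ≠ χ (Sym2.map f s((k, false), (k, true))) := by
    intro j k hjk e
    have := h.2 ((mem_M3 _).mpr ⟨j, rfl⟩) ((mem_M3 _).mpr ⟨k, rfl⟩) e
    simp [hjk] at this
  have h3 : ∀ i : Fin 3, i + 1 ≠ i ∧ i + 2 ≠ i ∧ i + 1 ≠ i + 2 := by decide
  refine ⟨_, hE (i + 1), _, hE (i + 2), ?_, hC _ _ (h3 i).1, hC _ _ (h3 i).2.1, hC _ _ (h3 i).2.2⟩
  intro v h1 h2
  have := (h3 i).2.2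
  simp only [Sym2.map_mk, Sym2.mem_iff] at h1 h2
  rcases h1 with rfl | rfl <;> rcases h2 with h2 | h2 <;>
    exact this (congrArg Prod.fst (f.injective h2))

theorem two {n : ℕ} (G : SimpleGraph (Fin n)) (χ : Sym2 (Fin n) → ℕ) (h : WeakSat M3 G χ)
    (hne : Gᶜ.edgeSet.Nonempty) (c : ℕ) :
    ∃ y ∈ G.edgeSet, ∃ z ∈ G.edgeSet, Dj y z ∧ χ y ≠ c ∧ χ z ≠ c ∧ χ y ≠ χ z := by
  classical
  obtain ⟨m, e, he, hr, h⟩ := h
  have hm : 0 < m := by
    rw [← hr] at hne
    obtain ⟨_, i, -⟩ := hne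
    exact i.pos
  obtain ⟨code, hcode⟩ := Countable.exists_injective_nat (Sym2 (Fin n))
  let i0 : Fin m := ⟨0, hm⟩
  have hni : ∀ i, e i ∉ G.edgeSet := by
    intro i
    have : e i ∈ Gᶜ.edgeSet := hr ▸ Set.mem_range_self i
    revert this
    induction e i using Sym2.ind with
    | _ a b => exact fun h => h.2
  let ψ : Sym2 (Fin n) → ℕ := fun x =>
    if x ∈ G.edgeSet then χ x else if x = e i0 then c else c + 1 + code x
  have hψ : ∀ x ∈ G.edgeSet, ψ x = χ x := fun x hx => if_pos hx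
  have hψ0 : ψ (e i0) = c := by simp [ψ, hni]
  obtain ⟨f, hf, hx⟩ := h ψ hψ (by
    intro i j hij
    simp only [Function.comp, ψ, hni, if_false] at hij
    apply he
    by_cases h1 : e i = e i0 <;> by_cases h2 : e j = e i0
    · rw [h1, h2]
    · simp only [h1, h2, if_true, if_false] at hij; omega
    · simp only [h1, h2, if_true, if_false] at hij; omega
    · simp only [h1, h2, if_false] at hij
      exact hcode (by omega)) i0
  obtain ⟨y, hy, z, hz, d, c1, c2, c3⟩ := extract _ _ f hf _ hx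
  have hin : ∀ y ∈ (G ⊔ fromEdgeSet (e '' Set.Iic i0)).edgeSet, ψ y ≠ ψ (e i0) → y ∈ G.edgeSet := by
    intro y hy hc
    rw [edgeSet_sup, edgeSet_fromEdgeSet] at hy
    rcases hy with hy | ⟨⟨j, hj, rfl⟩, -⟩
    · exact hy
    · have : j = i0 := Fin.ext (Nat.le_zero.mp hj)
      exact (hc (by rw [this])).elim
  have hy' := hin y hy c1
  have hz' := hin z hz c2
  rw [hψ0, hψ _ hy'] at c1
  rw [hψ0, hψ _ hz'] at c2
  rw [hψ _ hy', hψ _ hz'] at c3
  exact ⟨y, hy', z, hz', d, c1, c2, c3⟩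

theorem lower {n : ℕ} (hn : 11 ≤ n) (G : SimpleGraph (Fin n)) (χ : Sym2 (Fin n) → ℕ)
    (h : WeakSat M3 G χ) (h3 : G.edgeSet.ncard ≤ 3) :
    G.edgeSet.ncard = 3 ∧ ∃ f, RainbowCopy M3 G χ f := by
  classical
  have hne : Gᶜ.edgeSet.Nonempty := by
    by_contra hh
    have hadj : ∀ a b, a ≠ b → G.Adj a b := by
      intro a b hab
      by_contra h'
      exact hh ⟨s(a, b), hab, h'⟩
    let g : Fin 4 → Sym2 (Fin n) := fun i => s(⟨4, by omega⟩, ⟨i.val, by omega⟩)
    have hg : Function.Injective g := by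
      intro i j hij
      simp only [g, Sym2.congr_right, Fin.mk.injEq] at hij
      exact Fin.ext hij
    have : (Set.range g).ncard ≤ G.edgeSet.ncard := by
      apply Set.ncard_le_ncard _ (Set.toFinite _)
      rintro _ ⟨i, rfl⟩
      exact hadj _ _ (fun e => by
        have := i.isLt
        simp only [Fin.mk.injEq] at e
        omega)
    rw [Set.ncard_range_of_injective hg] at this
    simp at this
    omega
  obtain ⟨x, hx, -⟩ := two G χ h hne 0
  obtain ⟨y, hy, z, hz, d, c1, c2, c3⟩ := two G χ h hne (χ x)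
  have n1 : x ≠ y := fun e => c1 (by rw [e])
  have n2 : x ≠ z := fun e => c2 (by rw [e])
  have n3 : y ≠ z := fun e => c3 (by rw [e])
  have hsub : ({x, y, z} : Set (Sym2 (Fin n))) ⊆ G.edgeSet := by
    intro t ht
    rcases ht with rfl | rfl | rfl <;> assumption
  have hc : ({x, y, z} : Set (Sym2 (Fin n))).ncard = 3 :=
    Set.ncard_eq_three.mpr ⟨x, y, z, n1, n2, n3, rfl⟩
  have heq : ({x, y, z} : Set (Sym2 (Fin n))) = G.edgeSet :=
    Set.eq_of_subset_of_ncard_le hsub (by omega) (Set.toFinite _)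
  refine ⟨by rw [← heq, hc], ?_⟩
  have dxz : Dj x z := by
    obtain ⟨p, hp, q, hq, d', e1, e2, e3⟩ := two G χ h hne (χ y)
    rw [← heq] at hp hq
    rcases hp with rfl | rfl | rfl <;> rcases hq with rfl | rfl | rfl <;>
      first | exact absurd rfl e1 | exact absurd rfl e2 | exact absurd rfl e3 | exact d' |
        exact d'.symm
  have dxy : Dj x y := by
    obtain ⟨p, hp, q, hq, d', e1, e2, e3⟩ := two G χ h hne (χ z)
    rw [← heq] at hp hq
    rcases hp with rfl | rfl | rfl <;> rcases hq with rfl | rfl | rfl <;>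
      first | exact absurd rfl e1 | exact absurd rfl e2 | exact absurd rfl e3 | exact d' |
        exact d'.symm
  obtain ⟨f, hf, -⟩ := build G χ x y z hx hy hz dxy dxz d c1.symm c2.symm c3
  exact ⟨f, hf⟩

theorem upper {n : ℕ} (hn : 11 ≤ n) : ∃ (G : SimpleGraph (Fin n)) (χ : Sym2 (Fin n) → ℕ),
    WeakSat M3 G χ ∧ G.edgeSet.ncard = 3 := by
  classical
  let x : Sym2 (Fin n) := s(⟨0, by omega⟩, ⟨1, by omega⟩)
  let y : Sym2 (Fin n) := s(⟨2, by omega⟩, ⟨3, by omega⟩)
  let z : Sym2 (Fin n) := s(⟨4, by omega⟩, ⟨5, by omega⟩)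
  let G : SimpleGraph (Fin n) := fromEdgeSet {x, y, z}
  have hG : G.edgeSet = {x, y, z} := by
    rw [edgeSet_fromEdgeSet]
    apply sdiff_eq_left.mpr
    rw [Set.disjoint_left]
    rintro t (rfl | rfl | rfl) <;> simp [x, y, z]
  have n1 : x ≠ y := by simp [x, y]
  have n2 : x ≠ z := by simp [x, z]
  have n3 : y ≠ z := by simp [y, z]
  obtain ⟨χ, hχ⟩ := Countable.exists_injective_nat (Sym2 (Fin n))
  refine ⟨G, χ, ?_, by rw [hG]; exact Set.ncard_eq_three.mpr ⟨x, y, z, n1, n2, n3, rfl⟩⟩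
  let e0 := (Fintype.equivFin Gᶜ.edgeSet).symm
  let w : Sym2 (Fin n) → ℕ := fun t => if ∀ v ∈ t, 6 ≤ v.val then 0 else 1
  let σ := Tuple.sort (fun i => w (e0 i).1)
  have hmono : Monotone ((fun i => w (e0 i).1) ∘ σ) := Tuple.monotone_sort _
  have hrange : Set.range (fun i => (e0 (σ i)).1) = Gᶜ.edgeSet := by
    ext t
    constructor
    · rintro ⟨i, rfl⟩; exact (e0 (σ i)).2
    · intro ht; exact ⟨σ.symm (e0.symm ⟨t, ht⟩), by simp⟩
  refine ⟨_, fun i => (e0 (σ i)).1,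
    fun i j h => σ.injective (e0.injective (Subtype.ext h)), hrange, ?_⟩
  intro ψ hψ hinj i
  have hdiag : ¬ (e0 (σ i)).1.IsDiag := Gᶜ.not_isDiag_of_mem_edgeSet (e0 (σ i)).2
  have hself : (e0 (σ i)).1 ∈
      (G ⊔ fromEdgeSet ((fun i => (e0 (σ i)).1) '' Set.Iic i)).edgeSet := by
    rw [edgeSet_sup]
    refine .inr ?_
    rw [edgeSet_fromEdgeSet]
    exact ⟨⟨i, le_refl i, rfl⟩, hdiag⟩
  by_cases hw : ∀ v ∈ (e0 (σ i)).1, 6 ≤ v.val
  · have hold : ∀ t ∈ G.edgeSet,
        t ∈ (G ⊔ fromEdgeSet ((fun i => (e0 (σ i)).1) '' Set.Iic i)).edgeSet := by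
      intro t ht
      rw [edgeSet_sup]
      exact .inl ht
    have hx : x ∈ G.edgeSet := by simp [hG]
    have hy : y ∈ G.edgeSet := by simp [hG]
    have hz : z ∈ G.edgeSet := by simp [hG]
    have dx : Dj (e0 (σ i)).1 x := by
      intro v h1 h2
      have := hw v h1
      simp only [x, Sym2.mem_iff] at h2
      rcases h2 with rfl | rfl <;> simp at this
    have dy : Dj (e0 (σ i)).1 y := by
      intro v h1 h2
      have := hw v h1
      simp only [y, Sym2.mem_iff] at h2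
      rcases h2 with rfl | rfl <;> simp at this
    have dz : Dj (e0 (σ i)).1 z := by
      intro v h1 h2
      have := hw v h1
      simp only [z, Sym2.mem_iff] at h2
      rcases h2 with rfl | rfl <;> simp at this
    have dxy : Dj x y := by
      intro v h1 h2
      simp only [x, y, Sym2.mem_iff] at h1 h2
      rcases h1 with rfl | rfl <;> simp at h2
    have dxz : Dj x z := by
      intro v h1 h2
      simp only [x, z, Sym2.mem_iff] at h1 h2
      rcases h1 with rfl | rfl <;> simp at h2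
    have dyz : Dj y z := by
      intro v h1 h2
      simp only [y, z, Sym2.mem_iff] at h1 h2
      rcases h1 with rfl | rfl <;> simp at h2
    have c1 : ψ x ≠ ψ y := by rw [hψ x hx, hψ y hy]; exact hχ.ne n1
    have c2 : ψ x ≠ ψ z := by rw [hψ x hx, hψ z hz]; exact hχ.ne n2
    have c3 : ψ y ≠ ψ z := by rw [hψ y hy, hψ z hz]; exact hχ.ne n3
    by_cases k1 : ψ (e0 (σ i)).1 = ψ x
    · exact build _ ψ _ y z hself (hold y hy) (hold z hz) dy dz dyz (k1 ▸ c1) (k1 ▸ c2) c3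
    by_cases k2 : ψ (e0 (σ i)).1 = ψ y
    · exact build _ ψ _ x z hself (hold x hx) (hold z hz) dx dz dxz k1 (k2 ▸ c3) c2
    · exact build _ ψ _ x y hself (hold x hx) (hold y hy) dx dy dxy k1 k2 c1
  · have hnew : ∀ a b : Fin n, a ≠ b → 6 ≤ a.val → 6 ≤ b.val →
        ∃ j, j < i ∧ (e0 (σ j)).1 = s(a, b) := by
      intro a b hab ha hb
      have hm : s(a, b) ∈ Gᶜ.edgeSet := by
        refine ⟨hab, fun h => ?_⟩
        have : s(a, b) ∈ G.edgeSet := h
        rw [hG] at this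
        simp only [x, y, z, Set.mem_insert_iff, Set.mem_singleton_iff, Sym2.eq_iff,
          Fin.ext_iff] at this
        omega
      rw [← hrange] at hm
      obtain ⟨j, hj⟩ := hm
      refine ⟨j, ?_, hj⟩
      by_contra hh
      have := hmono (not_lt.mp hh)
      simp only at hj
      simp only [Function.comp, w, hw, if_false, hj] at this
      rw [if_pos (by
        intro v hv
        rcases Sym2.mem_iff.mp hv with rfl | rfl <;> assumption)] at this
      omega
    obtain ⟨t, ht⟩ : ∃ t : ℕ, ∀ v ∈ (e0 (σ i)).1, v.val < 6 ∨ v.val = t := by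
      revert hw
      induction (e0 (σ i)).1 using Sym2.ind with
      | _ a b =>
        intro hw
        simp only [Sym2.mem_iff, forall_eq_or_imp, forall_eq] at hw ⊢
        refine ⟨max a.val b.val, ?_, ?_⟩ <;> omega
    let g : Fin 4 → Fin n := fun k => ⟨if 6 + k.val < t then 6 + k.val else 7 + k.val, by
      have := k.isLt
      split_ifs <;> omega⟩
    have g1 : ∀ k, 6 ≤ (g k).val := by
      intro k; simp only [g]; split_ifs <;> omega
    have g2 : ∀ k, g k ∉ (e0 (σ i)).1 := by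
      intro k hk
      have := ht _ hk
      simp only [g] at this
      split_ifs at this <;> omega
    have g3 : ∀ k l, k ≠ l → g k ≠ g l := by
      intro k l hkl h
      have := Fin.val_ne_of_ne hkl
      simp only [g, Fin.mk.injEq] at h
      split_ifs at h <;> omega
    obtain ⟨j1, hj1, e1⟩ := hnew (g 0) (g 1) (g3 _ _ (by decide)) (g1 _) (g1 _)
    obtain ⟨j2, hj2, e2⟩ := hnew (g 2) (g 3) (g3 _ _ (by decide)) (g1 _) (g1 _)
    have hin : ∀ j, j < i → (e0 (σ j)).1 ∈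
        (G ⊔ fromEdgeSet ((fun i => (e0 (σ i)).1) '' Set.Iic i)).edgeSet := by
      intro j hj
      rw [edgeSet_sup]
      refine .inr ?_
      rw [edgeSet_fromEdgeSet]
      exact ⟨⟨j, hj.le, rfl⟩, Gᶜ.not_isDiag_of_mem_edgeSet (e0 (σ j)).2⟩
    have d3 : Dj (e0 (σ j1)).1 (e0 (σ j2)).1 := by
      rw [e1, e2]
      intro v h1 h2
      simp only [Sym2.mem_iff] at h1 h2
      rcases h1 with rfl | rfl <;> rcases h2 with h2 | h2 <;> exact g3 _ _ (by decide) h2
    refine build _ ψ _ _ _ hself (hin j1 hj1) (hin j2 hj2) ?_ ?_ d3 (hinj.ne hj1.ne')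
      (hinj.ne hj2.ne') (hinj.ne ?_)
    · rw [e1]
      intro v h1 h2
      rcases Sym2.mem_iff.mp h2 with rfl | rfl <;> exact g2 _ h1
    · rw [e2]
      intro v h1 h2
      rcases Sym2.mem_iff.mp h2 with rfl | rfl <;> exact g2 _ h1
    · rintro rfl
      exact d3 (g 0) (by rw [e1]; simp) (by rw [e1]; simp)

theorem result (n : ℕ) (hn : 11 ≤ n) :
    IsLeast {k | ∃ (G : SimpleGraph (Fin n)) (χ : Sym2 (Fin n) → ℕ),
      WeakSat ((⊥ : SimpleGraph (Fin 3)) □ (⊤ : SimpleGraph Bool)) G χ ∧ G.edgeSet.ncard = k} 3 ∧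
    ∀ (G : SimpleGraph (Fin n)) (χ : Sym2 (Fin n) → ℕ),
      WeakSat ((⊥ : SimpleGraph (Fin 3)) □ (⊤ : SimpleGraph Bool)) G χ → G.edgeSet.ncard = 3 →
        ∃ f, RainbowCopy ((⊥ : SimpleGraph (Fin 3)) □ (⊤ : SimpleGraph Bool)) G χ f := by
  refine ⟨⟨upper hn, ?_⟩, fun G χ h h3 => (lower hn G χ h h3.le).2⟩
  rintro k ⟨G, χ, h, rfl⟩
  by_contra hk
  have := (lower hn G χ h (by omega)).1
  omega

end Pool.Agent.Results.MP_e47ea7_co.Counter
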